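import Pool.Agent.TH996.Urn.Kn
import Pool.Agent.TH996.Urn.Crit

/-!
Complete graphs have no coexistence in the multi-type urn process, for any number of colours.
-/

namespace Pool.Agent.Results.MP_747d65_pr.CompleteGraphs

open Pool.Agent.TH996.Urn

/-- **Theorem.** For every `n ≥ 1` and every number `s` of colours the complete graph on `n`
vertices lies in the class `𝒢_s`: for every finite initial configuration the `s`-type urn process
on the complete graph almost surely has exactly one surviving colour. -/
theorem result (n s : ℕ) (hn : 1 ≤ n) : InClass (⊤ : SimpleGraph (Fin n)) s := by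
  have : Nonempty (Fin n) := ⟨⟨0, hn⟩⟩
  have hconn : (⊤ : SimpleGraph (Fin n)).Connected := SimpleGraph.connected_top
  rcases Nat.lt_or_ge 1 n with h | h
  · obtain ⟨f, hf, c, hc, N₀, hd⟩ := complete_drift n s h
    exact criterion _ hconn f hf c hc N₀ hd
  · obtain rfl : n = 1 := le_antisymm h hn
    refine criterion _ hconn (fun _ => 0) (fun _ => le_rfl) 1 one_pos 0 ?_
    intro x hx hm _
    exact absurd (fun u v c d hu hv => by
      have e : u = v := Subsingleton.elim u v
      subst e
      exact hx.1 u c d hu hv) hm

end Pool.Agent.Results.MP_747d65_pr.CompleteGraphs
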