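import Pool.Agent.TH996.Urn.CycFinal

/-!
Cycles have no coexistence in the multi-type urn process, for any number of colours.
-/

namespace Pool.Agent.Results.MP_747d65_pr.Cycles

open Pool.Agent.TH996.Urn

/-- **Theorem.** For every `k ≥ 3` and every number `s` of colours the cycle of length `k` lies in
the class `𝒢_s`: for every finite initial configuration the `s`-type urn process on the cycle
almost surely has exactly one surviving colour. -/
theorem result (k s : ℕ) (hk : 3 ≤ k) : InClass (SimpleGraph.cycleGraph k) s := by
  obtain ⟨n, rfl⟩ : ∃ n, k = n + 3 := ⟨k - 3, by omega⟩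
  exact cycle_inClass n s

end Pool.Agent.Results.MP_747d65_pr.Cycles
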