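import Pool.Agent.TH996.Urn.SbcMain

/-!
A strictly balanced configuration implies coexistence in the multi-type urn process.
-/

namespace Pool.Agent.Results.MP_747d65_pr.StrictlyBalanced

open Pool.Agent.TH996.Urn

/-- **Theorem.** If a finite graph `G` has a strictly balanced configuration with `s` colours, then
`G` does not lie in the class `𝒢_s`. -/
theorem result {V : Type} [Fintype V] (G : SimpleGraph V) (s : ℕ) (K : Finset V) (χ : V → Fin s)
    (φ : V → ℝ) (μ : ℝ) (h : IsSBC G K χ φ μ) : ¬ InClass G s :=
  sbc_not_inClass h

end Pool.Agent.Results.MP_747d65_pr.StrictlyBalanced
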